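import Pool.Agent.Helper62.FM.Final

set_option autoImplicit false

namespace Pool.Agent.Results.MP_841c5e_al.RankAsymptotics

open Filter Topology

/-- For each rank `r ≥ 2` the growth rate `ω r` of the free metabelian group `F_r / F_r''` (the limit
of the `n`-th root of the number of elements of word length `n`) exists, and
`r ^ 3 * (2 r - 1 - ω r)` tends to `11 / 16` as the rank `r` tends to infinity. -/
theorem result : ∃ ω : ℕ → ℝ,
    (∀ r : ℕ, 2 ≤ r → Tendsto (fun n : ℕ =>
      (Nat.card {g : FreeGroup (Fin r) ⧸ derivedSeries (FreeGroup (Fin r)) 2 //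
        sInf {m : ℕ | ∃ w : List (Fin r × Bool), w.length = m ∧
          (QuotientGroup.mk (FreeGroup.mk w) :
            FreeGroup (Fin r) ⧸ derivedSeries (FreeGroup (Fin r)) 2) = g} = n} : ℝ) ^ ((1 : ℝ) / n))
      atTop (𝓝 (ω r))) ∧
    Tendsto (fun r : ℕ => (r : ℝ) ^ 3 * (2 * r - 1 - ω r)) atTop (𝓝 (11 / 16)) :=
  Pool.Agent.Helper62.FM.rank_asymptotics

end Pool.Agent.Results.MP_841c5e_al.RankAsymptotics
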