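import Pool.Agent.Helper78.FG.Up

set_option autoImplicit false

namespace Pool.Agent.Results.MP_841c5e_al.RankTwoUpper

open Filter Topology

/-- The growth rate `ω` of the free metabelian group `F_2 / F_2''` of rank two (the limit of the
`n`-th root of the number of elements of word length `n`) exists and is at most `73 / 25 = 2.92`. -/
theorem result : ∃ ω : ℝ,
    Tendsto (fun n : ℕ =>
      (Nat.card {g : FreeGroup (Fin 2) ⧸ derivedSeries (FreeGroup (Fin 2)) 2 //
        sInf {m : ℕ | ∃ w : List (Fin 2 × Bool), w.length = m ∧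
          (QuotientGroup.mk (FreeGroup.mk w) :
            FreeGroup (Fin 2) ⧸ derivedSeries (FreeGroup (Fin 2)) 2) = g} = n} : ℝ) ^ ((1 : ℝ) / n))
      atTop (𝓝 ω) ∧ ω ≤ (73 : ℝ) / 25 :=
  ⟨Pool.Agent.Helper44.FMet.om 2 (by norm_num),
    Pool.Agent.Helper44.FMet.tendsto_om (by norm_num), Pool.Agent.Helper78.FG.upper (by norm_num)⟩

end Pool.Agent.Results.MP_841c5e_al.RankTwoUpper
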